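import Pool.Agent.W845.PM.Top
import Pool.Agent.W803.PM.Ext
import Pool.Agent.W705.PM.Com
import Pool.Agent.W293.PM.Mcd
import Pool.Agent.W591.PM.Near
import Pool.Agent.W883.PM.Edge
import Pool.Agent.W298.PM.PE
import Pool.Agent.W298.PM.Poi
import Pool.Agent.W925.PM.J
import Pool.Agent.W166.PM.SM
import Pool.Agent.W803.PM.Two
import Pool.Agent.W686.PM.Step1
import Pool.Agent.W419.PM.Step2
import Pool.Agent.W773.PM.Loc
import Pool.Agent.W705.PM.Split
import Pool.Agent.W675.PM.TM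
import Pool.Agent.W391.PM.Gen
import Pool.Agent.W293.PM.Mk
import Pool.Agent.W293.PM.Fix
import Pool.Agent.W298.PM.Teq
import Pool.Agent.W369.PM.Idt
import Pool.Agent.W414.PM.AF
import Pool.Agent.W638.PM.Z1
import Pool.Agent.W298.PM.Z2
import Pool.Agent.W636.PM.JT
import Pool.Agent.W672.PM.Bdet
import Pool.Agent.W310.PM.BPR
import Pool.Agent.W74.PM.LB
import Pool.Agent.W308.PM.UB
import Pool.Agent.W673.PM.KS
import Pool.Agent.W368.PM.AN
import Pool.Agent.W371.PM.AN34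
import Pool.Agent.W371.PM.Lip
import Pool.Agent.W369.PM.Det1
import Pool.Agent.W369.PM.Cut
import Pool.Agent.W672.PM.Fin1
import Pool.Agent.W382.PM.Fin0

set_option autoImplicit false

namespace Pool.Agent.W845.PM

theorem t_ext : S_EXT := Pool.Agent.W803.PM.ext_thm
theorem t_one : S_ONE := Pool.Agent.W803.PM.one_thm
theorem t_com : S_COM := Pool.Agent.W705.PM.com t_ext t_one
theorem t_mcd : S_MCD := Pool.Agent.W293.PM.mcd t_ext t_one
theorem t_nearrec : S_NEARREC := Pool.Agent.W591.PM.nearrec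
theorem t_nearp : S_NEARP := Pool.Agent.W591.PM.nearp t_ext t_one t_com
theorem t_edge : S_EDGE := Pool.Agent.W883.PM.edge t_ext t_one
theorem t_prod : S_PROD := Pool.Agent.W298.PM.prod_thm
theorem t_ex : S_EX := Pool.Agent.W298.PM.ex_thm
theorem t_wei : S_WEI := Pool.Agent.W298.PM.wei t_ex
theorem t_poi : S_POI := Pool.Agent.W298.PM.poi
theorem t_uext : S_UEXT := Pool.Agent.W925.PM.uext
theorem t_uiso : S_UISO := Pool.Agent.W925.PM.uiso
theorem t_uloc : S_ULOC := Pool.Agent.W925.PM.uloc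
theorem t_sm : S_SM := Pool.Agent.W166.PM.sm t_one t_com
theorem t_two : S_TWO := Pool.Agent.W803.PM.two t_ext t_one t_uext
theorem t_split : S_SPLIT := Pool.Agent.W705.PM.split
theorem t_tm : S_TM := Pool.Agent.W845.PM.tm
theorem t_gen : S_GEN := Pool.Agent.W391.PM.gen t_split
theorem t_step1 : S_STEP1 := Pool.Agent.W845.PM.step1 t_one t_prod t_ex t_wei t_poi t_tm t_gen
theorem t_step2 : S_STEP2 :=
  Pool.Agent.W419.PM.step2 t_ext t_one t_com t_uiso t_uloc t_nearp t_two t_sm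
theorem t_loc : S_LOC := Pool.Agent.W773.PM.loc t_step1 t_step2 t_one t_tm
theorem t_mk : S_MK := Pool.Agent.W293.PM.mk t_split
theorem t_fix : S_FIX := Pool.Agent.W293.PM.fix t_tm
theorem t_teq : S_TEQ := Pool.Agent.W298.PM.teq t_tm t_gen
theorem t_id : S_ID := Pool.Agent.W369.PM.Id.idt t_tm t_mk t_teq
theorem t_af : S_AF := Pool.Agent.W845.PM.af t_fix t_teq t_id
theorem t_z1 : S_Z1 := Pool.Agent.W638.PM.z1 Pool.Agent.W638.PM.zrec Pool.Agent.W638.PM.zsum
theorem t_z2 : S_Z2 := Pool.Agent.W298.PM.z2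
theorem t_za : S_ZA := Pool.Agent.W298.PM.za t_z1 t_z2
theorem t_ju : S_JU := Pool.Agent.W925.PM.ju
theorem t_jx : S_JX := Pool.Agent.W925.PM.jx
theorem t_jmono : S_JMONO := Pool.Agent.W925.PM.jmono
theorem t_jloc : S_JLOC := Pool.Agent.W925.PM.jloc
theorem t_jt : S_JT := Pool.Agent.W636.PM.jt t_tm t_gen
theorem t_jconv : S_JCONV := Pool.Agent.W636.PM.jconv t_loc t_ju t_jt t_ex
theorem t_bdet : S_BDET :=
  Pool.Agent.W672.PM.bdet Pool.Agent.W672.PM.ind t_jx t_jloc t_jmono t_nearrec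
theorem t_bd2 : S_BD2 := Pool.Agent.W310.PM.bd2 t_ext t_one t_com t_ju t_uext t_uiso
theorem t_bbd : S_BBD := Pool.Agent.W310.PM.bbd t_ext t_one t_com t_nearp
theorem t_lb : S_LB := Pool.Agent.W74.PM.lb t_jconv t_bdet t_bd2 t_bbd t_one
theorem t_an1 : S_AN1 := Pool.Agent.W368.PM.an1
theorem t_an2 : S_AN2 := Pool.Agent.W368.PM.an2
theorem t_an3 : S_AN3 := Pool.Agent.W371.PM.an3
theorem t_an4 : S_AN4 := Pool.Agent.W371.PM.an4
theorem t_ub : S_UB := Pool.Agent.W308.PM.ub t_za t_z2 t_loc t_af t_an1 t_one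

/-- The Karp-Sipser theorem: the expected deficiency of `G(n,p_n)`, `n p_n → c`, divided by `n`,
tends to `Gam c - 1`. -/
theorem t_ks : S_KS := Pool.Agent.W673.PM.ks t_lb t_ub t_an2 t_an3
theorem t_unif : S_UNIF := Pool.Agent.W673.PM.unif t_ks
theorem t_lip : S_LIP := Pool.Agent.W371.PM.lip
theorem t_det0 : S_DET0 := Pool.Agent.W371.PM.det0
theorem t_kbd : S_KBD := Pool.Agent.W371.PM.kbd
theorem t_det1 : S_DET1 := Pool.Agent.W369.PM.Dt.det1
theorem t_cut : S_CUT := Pool.Agent.W369.PM.Ct.cut t_ext t_one t_edge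
theorem t_fin1 : S_FIN1 :=
  Pool.Agent.W672.PM.fin1 t_one t_com t_mcd t_lip t_unif t_an4 t_cut t_det1
theorem t_fin0 : S_FIN0 :=
  Pool.Agent.W382.PM.Fin0.fin0 t_one t_com t_mcd t_lip t_unif t_an4 t_det0 t_kbd

end Pool.Agent.W845.PM
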