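import Pool.Agent.W845.PM.Stm

set_option autoImplicit false
open scoped Classical
open Filter Topology MeasureTheory ProbabilityTheory
open scoped ENNReal NNReal BigOperators

namespace Pool.Agent.W845.PM

noncomputable section

theorem wt_nonneg {n : ℕ} {p : ℝ} (h0 : 0 ≤ p) (h1 : p ≤ 1) (G : SimpleGraph (Fin n)) :
    0 ≤ wt n p G :=
  mul_nonneg (pow_nonneg h0 _) (pow_nonneg (by linarith) _)

theorem ws_nonneg {n : ℕ} {p : ℝ} (h0 : 0 ≤ p) (h1 : p ≤ 1) (N : Finset (Fin n)) :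
    0 ≤ ws n p N :=
  mul_nonneg (pow_nonneg h0 _) (pow_nonneg (by linarith) _)

theorem EG_add (n : ℕ) (p : ℝ) (F F' : SimpleGraph (Fin n) → ℝ) :
    EG n p (fun G => F G + F' G) = EG n p F + EG n p F' := by
  simp only [EG, mul_add, Finset.sum_add_distrib]

theorem EG_sub (n : ℕ) (p : ℝ) (F F' : SimpleGraph (Fin n) → ℝ) :
    EG n p (fun G => F G - F' G) = EG n p F - EG n p F' := by
  simp only [EG, mul_sub, Finset.sum_sub_distrib]

theorem EG_mul_left (n : ℕ) (p a : ℝ) (F : SimpleGraph (Fin n) → ℝ) :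
    EG n p (fun G => a * F G) = a * EG n p F := by
  simp only [EG, Finset.mul_sum]
  refine Finset.sum_congr rfl fun G _ => by ring

theorem EG_mul_right (n : ℕ) (p a : ℝ) (F : SimpleGraph (Fin n) → ℝ) :
    EG n p (fun G => F G * a) = EG n p F * a := by
  simp only [EG, Finset.sum_mul]
  refine Finset.sum_congr rfl fun G _ => by ring

theorem EG_div (n : ℕ) (p a : ℝ) (F : SimpleGraph (Fin n) → ℝ) :
    EG n p (fun G => F G / a) = EG n p F / a := by
  simp only [div_eq_mul_inv, EG_mul_right]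

theorem EG_sum {ι : Type*} (n : ℕ) (p : ℝ) (s : Finset ι) (F : ι → SimpleGraph (Fin n) → ℝ) :
    EG n p (fun G => ∑ i ∈ s, F i G) = ∑ i ∈ s, EG n p (F i) := by
  simp only [EG, Finset.mul_sum]
  exact Finset.sum_comm

theorem EG_congr {n : ℕ} {p : ℝ} {F F' : SimpleGraph (Fin n) → ℝ} (h : ∀ G, F G = F' G) :
    EG n p F = EG n p F' := by
  rw [funext h]

theorem EG_mono {n : ℕ} {p : ℝ} (h0 : 0 ≤ p) (h1 : p ≤ 1) {F F' : SimpleGraph (Fin n) → ℝ}
    (h : ∀ G, F G ≤ F' G) : EG n p F ≤ EG n p F' :=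
  Finset.sum_le_sum fun G _ => mul_le_mul_of_nonneg_left (h G) (wt_nonneg h0 h1 G)

theorem EG_nonneg {n : ℕ} {p : ℝ} (h0 : 0 ≤ p) (h1 : p ≤ 1) {F : SimpleGraph (Fin n) → ℝ}
    (h : ∀ G, 0 ≤ F G) : 0 ≤ EG n p F :=
  Finset.sum_nonneg fun G _ => mul_nonneg (wt_nonneg h0 h1 G) (h G)

theorem EG_abs_le {n : ℕ} {p : ℝ} (h0 : 0 ≤ p) (h1 : p ≤ 1) (F : SimpleGraph (Fin n) → ℝ) :
    |EG n p F| ≤ EG n p (fun G => |F G|) := by
  refine (Finset.abs_sum_le_sum_abs _ _).trans (Finset.sum_le_sum fun G _ => ?_)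
  rw [abs_mul, abs_of_nonneg (wt_nonneg h0 h1 G)]

theorem EG_const (hone : S_ONE) (n : ℕ) (p a : ℝ) : EG n p (fun _ => a) = a := by
  have := EG_mul_left n p a (fun _ => 1)
  simpa [(hone n p).1] using this

/-- shifting a sequence keeps `Seq` -/
theorem Seq.shift {c : ℝ} {p : ℕ → ℝ} (h : Seq c p) (r : ℕ) : Seq c (fun n => p (n + r)) := by
  refine ⟨fun n => h.1 _, ?_⟩
  have h1 : Tendsto (fun n : ℕ => ((n + r : ℕ) : ℝ) * p (n + r)) atTop (𝓝 c) :=
    (tendsto_add_atTop_iff_nat (f := fun n : ℕ => (n : ℝ) * p n) r).2 h.2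
  have h2 : Tendsto (fun n : ℕ => (n : ℝ) / ((n + r : ℕ) : ℝ)) atTop (𝓝 1) := by
    have := tendsto_natCast_div_add_atTop (𝕜 := ℝ) (r : ℝ)
    refine this.congr fun n => by push_cast; rfl
  have h3 := h2.mul h1
  rw [one_mul] at h3
  refine h3.congr' ?_
  filter_upwards [eventually_gt_atTop 0] with n hn
  have : ((n + r : ℕ) : ℝ) ≠ 0 := by positivity
  field_simp

theorem Seq.tendsto_zero {c : ℝ} {p : ℕ → ℝ} (h : Seq c p) : Tendsto p atTop (𝓝 0) := by
  have h1 : Tendsto (fun n : ℕ => (n : ℝ)⁻¹ * ((n : ℝ) * p n)) atTop (𝓝 (0 * c)) :=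
    (tendsto_inv_atTop_zero.comp tendsto_natCast_atTop_atTop).mul h.2
  rw [zero_mul] at h1
  refine h1.congr' ?_
  filter_upwards [eventually_gt_atTop 0] with n hn
  have : (n : ℝ) ≠ 0 := by positivity
  field_simp

theorem Seq.mul_sq {c : ℝ} {p : ℕ → ℝ} (h : Seq c p) :
    Tendsto (fun n : ℕ => (n : ℝ) * p n ^ 2) atTop (𝓝 0) := by
  have := h.2.mul h.tendsto_zero
  rw [mul_zero] at this
  refine this.congr fun n => by ring

theorem ext_adj_last {n : ℕ} (K : SimpleGraph (Fin n)) (N : Finset (Fin n)) (w : Fin n) :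
    (ext K N).Adj (Fin.last n) (Fin.castSucc w) ↔ w ∈ N := by
  constructor
  · rintro (⟨x, y, hx, hy, h⟩ | ⟨ha, y, hy, hb⟩ | ⟨hb, x, hx, ha⟩)
    · exact absurd hx.symm (Fin.castSucc_lt_last x).ne
    · rwa [Fin.castSucc_injective n hb]
    · exact absurd hb (Fin.castSucc_lt_last w).ne
  · intro h
    exact Or.inr (Or.inl ⟨rfl, w, h, rfl⟩)

theorem ext_adj_castSucc {n : ℕ} (K : SimpleGraph (Fin n)) (N : Finset (Fin n)) (v w : Fin n) :
    (ext K N).Adj (Fin.castSucc v) (Fin.castSucc w) ↔ K.Adj v w := by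
  constructor
  · rintro (⟨x, y, hx, hy, h⟩ | ⟨ha, y, hy, hb⟩ | ⟨hb, x, hx, ha⟩)
    · rwa [Fin.castSucc_injective n hx, Fin.castSucc_injective n hy]
    · exact absurd ha (Fin.castSucc_lt_last v).ne
    · exact absurd hb (Fin.castSucc_lt_last w).ne
  · intro h
    exact Or.inl ⟨v, w, rfl, rfl, h⟩

theorem del_ext_last {n : ℕ} (K : SimpleGraph (Fin n)) (N : Finset (Fin n)) :
    del (ext K N) (Fin.last n) = ext K ∅ := by
  ext a b
  constructor
  · rintro ⟨h, ha, hb⟩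
    rcases h with ⟨x, y, hx, hy, h⟩ | ⟨ha', _⟩ | ⟨hb', _⟩
    · exact Or.inl ⟨x, y, hx, hy, h⟩
    · exact absurd ha' ha
    · exact absurd hb' hb
  · rintro (⟨x, y, hx, hy, h⟩ | ⟨_, y, hy, _⟩ | ⟨_, x, hx, _⟩)
    · exact ⟨Or.inl ⟨x, y, hx, hy, h⟩, hx ▸ (Fin.castSucc_lt_last x).ne,
        hy ▸ (Fin.castSucc_lt_last y).ne⟩
    · simp at hy
    · simp at hx

theorem del_ext_castSucc {n : ℕ} (K : SimpleGraph (Fin n)) (v : Fin n) :
    del (ext K ∅) (Fin.castSucc v) = ext (del K v) ∅ := by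
  ext a b
  constructor
  · rintro ⟨h, ha, hb⟩
    rcases h with ⟨x, y, hx, hy, h⟩ | ⟨_, y, hy, _⟩ | ⟨_, x, hx, _⟩
    · exact Or.inl ⟨x, y, hx, hy, h, fun e => ha (by rw [hx, e]), fun e => hb (by rw [hy, e])⟩
    · simp at hy
    · simp at hx
  · rintro (⟨x, y, hx, hy, h, h1, h2⟩ | ⟨_, y, hy, _⟩ | ⟨_, x, hx, _⟩)
    · exact ⟨Or.inl ⟨x, y, hx, hy, h⟩, fun e => h1 (Fin.castSucc_injective n (hx.symm.trans e)),
        fun e => h2 (Fin.castSucc_injective n (hy.symm.trans e))⟩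
    · simp at hy
    · simp at hx

theorem ext_comap {n : ℕ} (K : SimpleGraph (Fin n)) (N : Finset (Fin n)) :
    (ext K N).comap Fin.castSucc = K := by
  ext a b
  rw [SimpleGraph.comap_adj, ext_adj_castSucc]

theorem del_comm {V : Type} (G : SimpleGraph V) (v w : V) : del (del G v) w = del (del G w) v := by
  ext a b
  simp only [del]
  tauto

theorem near_mono {V : Type} {j k : ℕ} {G H : SimpleGraph V} {a b : V} (hjk : j ≤ k) (h : G ≤ H)
    (hn : near j G a b) : near k H a b := by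
  obtain ⟨w, hw⟩ := hn
  exact ⟨w.mapLe h, by rw [SimpleGraph.Walk.length_map]; omega⟩

theorem near_symm {V : Type} {j : ℕ} {G : SimpleGraph V} {a b : V} (hn : near j G a b) :
    near j G b a := by
  obtain ⟨w, hw⟩ := hn
  exact ⟨w.reverse, by simpa using hw⟩

theorem near_cons {V : Type} {j : ℕ} {G : SimpleGraph V} {a b c : V} (h : G.Adj a b)
    (hn : near j G b c) : near (j + 1) G a c := by
  obtain ⟨w, hw⟩ := hn
  exact ⟨SimpleGraph.Walk.cons h w, by simpa using hw⟩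

theorem del_le {V : Type} (G : SimpleGraph V) (v : V) : del G v ≤ G := fun _ _ h => h.1

theorem continuous_gA (j : ℕ) : Continuous (gA j) := by
  unfold gA
  by_cases h : Even j
  · simp only [h, if_true]
    exact continuous_inv
  · simp only [h, if_false]
    exact continuous_inv.comp (continuous_add_left (1 : ℝ≥0∞))

theorem continuous_gB (j : ℕ) : Continuous (gB j) := continuous_inv

end

end Pool.Agent.W845.PM
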