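import Mathlib

set_option autoImplicit false
open scoped Classical
open Filter Topology MeasureTheory ProbabilityTheory
open scoped ENNReal NNReal BigOperators

namespace Pool.Agent.W845.PM

noncomputable section

/-- The graph `G` with the vertex `v` isolated (all edges at `v` removed). -/
def del {V : Type} (G : SimpleGraph V) (v : V) : SimpleGraph V where
  Adj a b := G.Adj a b ∧ a ≠ v ∧ b ≠ v
  symm := ⟨fun _ _ h => ⟨h.1.symm, h.2.2, h.2.1⟩⟩
  loopless := ⟨fun a h => G.loopless.irrefl a h.1⟩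

/-- Weight of a graph under the binomial random graph `G(n,p)`. -/
def wt (n : ℕ) (p : ℝ) (G : SimpleGraph (Fin n)) : ℝ :=
  p ^ G.edgeSet.ncard * (1 - p) ^ (n.choose 2 - G.edgeSet.ncard)

/-- Expectation under `G(n,p)`. -/
def EG (n : ℕ) (p : ℝ) (F : SimpleGraph (Fin n) → ℝ) : ℝ :=
  ∑ G : SimpleGraph (Fin n), wt n p G * F G

/-- Weight of a `p`-random subset of `Fin n`. -/
def ws (n : ℕ) (p : ℝ) (N : Finset (Fin n)) : ℝ := p ^ N.card * (1 - p) ^ (n - N.card)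

/-- Add a new last vertex with neighbourhood `N` to the graph `K`. -/
def ext {n : ℕ} (K : SimpleGraph (Fin n)) (N : Finset (Fin n)) : SimpleGraph (Fin (n + 1)) where
  Adj a b := (∃ x y : Fin n, a = Fin.castSucc x ∧ b = Fin.castSucc y ∧ K.Adj x y) ∨
    (a = Fin.last n ∧ ∃ y ∈ N, b = Fin.castSucc y) ∨
    (b = Fin.last n ∧ ∃ x ∈ N, a = Fin.castSucc x)
  symm := ⟨by
    rintro a b (⟨x, y, hx, hy, h⟩ | ⟨ha, y, hy, hb⟩ | ⟨hb, x, hx, ha⟩)
    · exact Or.inl ⟨y, x, hy, hx, h.symm⟩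
    · exact Or.inr (Or.inr ⟨ha, y, hy, hb⟩)
    · exact Or.inr (Or.inl ⟨hb, x, hx, ha⟩)⟩
  loopless := ⟨by
    rintro a (⟨x, y, hx, hy, h⟩ | ⟨ha, y, hy, hb⟩ | ⟨hb, x, hx, ha⟩)
    · have hxy : x = y := Fin.castSucc_injective n (hx.symm.trans hy)
      exact K.loopless.irrefl x (hxy ▸ h)
    · exact (Fin.castSucc_lt_last y).ne (hb.symm.trans ha)
    · exact (Fin.castSucc_lt_last x).ne (ha.symm.trans hb)⟩

/-- The local recursion: `U 0 = u0`, `U (k+1) G v = g k (sum over neighbours w of U k (del G v) w)`. -/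
def U {V : Type} [Fintype V] (g : ℕ → ℝ≥0∞ → ℝ≥0∞) (u0 : ℝ≥0∞) :
    ℕ → SimpleGraph V → V → ℝ≥0∞
  | 0, _, _ => u0
  | k + 1, G, v => g k (∑ w : V, if G.Adj v w then U g u0 k (del G v) w else 0)

/-- The alternating maps of the zero temperature recursion. -/
def gA (k : ℕ) (s : ℝ≥0∞) : ℝ≥0∞ := if Even k then s⁻¹ else (1 + s)⁻¹

/-- The map of the leaf removal recursion. -/
def gB (_ : ℕ) (s : ℝ≥0∞) : ℝ≥0∞ := s⁻¹

/-- The map of the positive temperature recursion at activity `z`. -/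
def gZ (z : ℕ) (_ : ℕ) (s : ℝ≥0∞) : ℝ≥0∞ := (1 + (z : ℝ≥0∞) * s)⁻¹

/-- `near j G a b`: there is a walk of length at most `j` from `a` to `b`. -/
def near {V : Type} (j : ℕ) (G : SimpleGraph V) (a b : V) : Prop :=
  ∃ w : G.Walk a b, w.length ≤ j

/-- Leaf removal indicator. -/
def J {V : Type} : ℕ → SimpleGraph V → V → Prop
  | 0, _, _ => False
  | k + 1, G, v => ∀ w, G.Adj v w → ¬ J k (del G v) w

/-- A matching of `G`, as a finite set of edges. -/
def IsM {V : Type} (G : SimpleGraph V) (M : Finset (Sym2 V)) : Prop :=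
  (∀ e ∈ M, e ∈ G.edgeSet) ∧ ∀ e ∈ M, ∀ f ∈ M, e ≠ f → ∀ v, v ∈ e → v ∉ f

/-- The matching number. -/
def nu {V : Type} [Fintype V] (G : SimpleGraph V) : ℕ :=
  (Finset.univ.filter (fun M : Finset (Sym2 V) => IsM G M)).sup Finset.card

/-- The deficiency: number of vertices left uncovered by a maximum matching. -/
def dfc {V : Type} [Fintype V] (G : SimpleGraph V) : ℝ :=
  (Fintype.card V : ℝ) - 2 * (nu G : ℝ)

/-- Labelled trees: the number of children of every node of the infinite tree of lists. -/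
abbrev Om : Type := List ℕ → ℕ

/-- The law of the Poisson(c) Galton-Watson tree. -/
def Pm (c : ℝ≥0) : Measure Om := Measure.infinitePi (fun _ : List ℕ => poissonMeasure c)

instance (c : ℝ≥0) : IsProbabilityMeasure (Pm c) := by unfold Pm; infer_instance

/-- The subtree of the `i`-th child. -/
def sh (i : ℕ) (ω : Om) : Om := fun l => ω (i :: l)

/-- The local recursion on trees. -/
def T (g : ℕ → ℝ≥0∞ → ℝ≥0∞) (u0 : ℝ≥0∞) : ℕ → Om → ℝ≥0∞
  | 0, _ => u0
  | k + 1, ω => g k (∑ i ∈ Finset.range (ω []), T g u0 k (sh i ω))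

/-- The exponential `e^(-u)` on `[0,∞]`. -/
def ex (u : ℝ≥0∞) : ℝ := if u = ⊤ then 0 else Real.exp (-u.toReal)

/-- Expectation of `h` of the sum of `u` over a `p`-random subset. -/
def Psi (n : ℕ) (p : ℝ) (h : ℝ≥0∞ → ℝ) (u : Fin n → ℝ≥0∞) : ℝ :=
  ∑ N : Finset (Fin n), ws n p N * h (∑ w ∈ N, u w)

/-- Sequences of edge probabilities with `n p_n → c`. -/
def Seq (c : ℝ) (p : ℕ → ℝ) : Prop :=
  (∀ n, 0 ≤ p n ∧ p n ≤ 1) ∧ Tendsto (fun n : ℕ => (n : ℝ) * p n) atTop (𝓝 c)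

/-- The vertex average of `u` converges in mean to `m` in `G(n,c/n)`. -/
def Conv (c : ℝ) (u : (n : ℕ) → SimpleGraph (Fin n) → Fin n → ℝ) (m : ℝ) : Prop :=
  ∀ p : ℕ → ℝ, Seq c p →
    Tendsto (fun n : ℕ => EG n (p n) (fun G => |(∑ v, u n G v) / n - m|)) atTop (𝓝 0)

/-- Scalar leaf removal recursion. -/
def jc (c : ℝ) : ℕ → ℝ
  | 0 => 0
  | k + 1 => Real.exp (-(c * jc c k))

/-- The function maximised in the Karp-Sipser formula. -/
def gf (c s : ℝ) : ℝ := Real.exp (-(c * s)) + s - s * Real.log s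

/-- Its maximum over `[0,1]`. -/
def Gam (c : ℝ) : ℝ := sSup (gf c '' Set.Icc (0 : ℝ) 1)

/-- `t` is the smallest real root of `t = exp(-c exp(-c t))`. -/
def SmallRoot (c t : ℝ) : Prop :=
  t = Real.exp (-(c * Real.exp (-(c * t)))) ∧
    ∀ x : ℝ, x = Real.exp (-(c * Real.exp (-(c * x)))) → t ≤ x

/-- The value `t + e^(-ct) + c t e^(-ct)`. -/
def val (c t : ℝ) : ℝ := t + Real.exp (-(c * t)) + c * t * Real.exp (-(c * t))

end

end Pool.Agent.W845.PM
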