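import Pool.Agent.W845.PM.Defs

set_option autoImplicit false
open scoped Classical
open Filter Topology MeasureTheory ProbabilityTheory
open scoped ENNReal NNReal BigOperators

namespace Pool.Agent.W845.PM

noncomputable section

/-! Graph measure -/

def S_EXT : Prop := ∀ (n : ℕ) (p : ℝ) (F : SimpleGraph (Fin (n + 1)) → ℝ),
  EG (n + 1) p F = ∑ N : Finset (Fin n), ws n p N * EG n p (fun K => F (ext K N))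

def S_ONE : Prop := ∀ (n : ℕ) (p : ℝ),
  EG n p (fun _ => 1) = 1 ∧ ∑ N : Finset (Fin n), ws n p N = 1

def S_COM : Prop := ∀ (m n : ℕ) (e : Fin m ↪ Fin n) (p : ℝ) (F : SimpleGraph (Fin m) → ℝ),
  EG n p (fun G => F (G.comap e)) = EG m p F

def S_MCD : Prop := ∀ (n : ℕ) (p d s : ℝ) (F : SimpleGraph (Fin n) → ℝ), 1 ≤ n →
  0 ≤ p → p ≤ 1 → 0 < d → 0 ≤ s →
  (∀ (G G' : SimpleGraph (Fin n)) (v : Fin n), del G v = del G' v → |F G - F G'| ≤ d) →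
  EG n p (fun G => if EG n p F + s ≤ F G then (1 : ℝ) else 0) ≤
    Real.exp (-(s ^ 2 / (2 * n * d ^ 2)))

def S_NEARREC : Prop := ∀ (V : Type) (j : ℕ) (G : SimpleGraph V) (a b : V), a ≠ b →
  near (j + 1) G a b → ∃ w, G.Adj a w ∧ near j (del G a) w b

def S_NEARP : Prop := ∀ (j n : ℕ) (p : ℝ) (a b : Fin n), 0 ≤ p → p ≤ 1 → a ≠ b →
  EG n p (fun G => if near j G a b then (1 : ℝ) else 0) ≤
    p * ∑ i ∈ Finset.range j, ((n : ℝ) * p) ^ i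

def S_EDGE : Prop := ∀ (n : ℕ) (p : ℝ) (X Y : Finset (Fin n)), 0 ≤ p → p ≤ 1 → Disjoint X Y →
  EG n p (fun G => if ∀ x ∈ X, ∀ y ∈ Y, ¬ G.Adj x y then (1 : ℝ) else 0) ≤
    (1 - p) ^ (X.card * Y.card)

/-! Local limit -/

def S_PROD : Prop := ∀ (n : ℕ) (p : ℝ) (a : Fin n → ℝ),
  ∑ N : Finset (Fin n), ws n p N * ∏ w ∈ N, a w = ∏ w, (1 - p + p * a w)

def S_EX : Prop := Continuous ex ∧ Function.Injective ex ∧ (∀ u, 0 ≤ ex u ∧ ex u ≤ 1) ∧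
  ex 0 = 1 ∧ (∀ u v, ex (u + v) = ex u * ex v) ∧
  ∀ (ι : Type) (s : Finset ι) (u : ι → ℝ≥0∞), ex (∑ i ∈ s, u i) = ∏ i ∈ s, ex (u i)

def S_WEI : Prop := ∀ h : ℝ≥0∞ → ℝ, Continuous h → ∀ ε : ℝ, 0 < ε →
  ∃ P : Polynomial ℝ, ∀ u, |h u - P.eval (ex u)| ≤ ε

def S_POI : Prop := ∀ (n : ℕ) (p c α : ℝ) (a : Fin n → ℝ), 0 ≤ p → p ≤ 1 → 0 ≤ c →
  0 ≤ α → α ≤ 1 → (∀ w, 0 ≤ a w ∧ a w ≤ 1) →
  |∏ w, (1 - p + p * a w) - Real.exp (-(c * (1 - α)))| ≤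
    n * p ^ 2 + |(n : ℝ) * p - c| + c * |(∑ w, a w) / n - α|

def S_UEXT : Prop := ∀ (g : ℕ → ℝ≥0∞ → ℝ≥0∞) (u0 : ℝ≥0∞) (k n : ℕ) (K : SimpleGraph (Fin n))
  (N : Finset (Fin n)),
  U g u0 (k + 1) (ext K N) (Fin.last n) = g k (∑ w ∈ N, U g u0 k K w) ∧
  ∀ w : Fin n, U g u0 k (ext K ∅) (Fin.castSucc w) = U g u0 k K w

def S_UISO : Prop := ∀ (g : ℕ → ℝ≥0∞ → ℝ≥0∞) (u0 : ℝ≥0∞) (k n : ℕ) (G : SimpleGraph (Fin n))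
  (σ : Equiv.Perm (Fin n)) (v : Fin n), U g u0 k (G.comap σ) v = U g u0 k G (σ v)

def S_ULOC : Prop := ∀ (g : ℕ → ℝ≥0∞ → ℝ≥0∞) (u0 : ℝ≥0∞) (V : Type) [Fintype V] (j : ℕ)
  (G : SimpleGraph V) (v b : V), ¬ near j G v b → U g u0 j G v = U g u0 j (del G b) v

def S_SM : Prop := ∀ (n : ℕ) (p m : ℝ) (f : SimpleGraph (Fin n) → Fin n → ℝ) (a b : Fin n),
  2 ≤ n → 0 ≤ p → p ≤ 1 → |m| ≤ 1 → (∀ G v, |f G v| ≤ 1) →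
  (∀ (σ : Equiv.Perm (Fin n)) G v, f (G.comap σ) v = f G (σ v)) → a ≠ b →
  EG n p (fun G => |(∑ v, f G v) / n - m|) ≤
    Real.sqrt (2 / n + |EG n p (fun G => f G a * f G b) - m ^ 2| +
      2 * |EG n p (fun G => f G a) - m|)

def S_TWO : Prop := ∀ (g : ℕ → ℝ≥0∞ → ℝ≥0∞) (u0 : ℝ≥0∞) (k n : ℕ) (p : ℝ) (φ : ℝ≥0∞ → ℝ),
  EG (n + 1) p (fun G => φ (U g u0 (k + 1) G (Fin.last n))) =
    EG n p (fun K => Psi n p (fun s => φ (g k s)) (fun w => U g u0 k K w)) ∧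
  EG (n + 2) p (fun G =>
    φ (U g u0 (k + 1) (del G (Fin.castSucc (Fin.last n))) (Fin.last (n + 1))) *
    φ (U g u0 (k + 1) (del G (Fin.last (n + 1))) (Fin.castSucc (Fin.last n)))) =
    EG n p (fun K => (Psi n p (fun s => φ (g k s)) (fun w => U g u0 k K w)) ^ 2)

def S_STEP1 : Prop := ∀ (c : ℝ≥0) (g : ℕ → ℝ≥0∞ → ℝ≥0∞) (u0 : ℝ≥0∞) (k : ℕ),
  (∀ j, Continuous (g j)) →
  (∀ φ : ℝ≥0∞ → ℝ, Continuous φ →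
    Conv c (fun _ G v => φ (U g u0 k G v)) (∫ ω, φ (T g u0 k ω) ∂(Pm c))) →
  ∀ h : ℝ≥0∞ → ℝ, Continuous h → ∀ p : ℕ → ℝ, Seq c p →
    Tendsto (fun n : ℕ => EG n (p n) (fun K => |Psi n (p n) h (fun w => U g u0 k K w) -
      ∫ ω, h (∑ i ∈ Finset.range (ω []), T g u0 k (sh i ω)) ∂(Pm c)|)) atTop (𝓝 0)

def S_STEP2 : Prop := ∀ (c : ℝ) (g : ℕ → ℝ≥0∞ → ℝ≥0∞) (u0 : ℝ≥0∞) (k : ℕ) (φ : ℝ≥0∞ → ℝ)
  (m : ℝ), 0 ≤ c → (∀ u, |φ u| ≤ 1) → |m| ≤ 1 →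
  (∀ p : ℕ → ℝ, Seq c p → Tendsto (fun n : ℕ => EG n (p n) (fun K =>
    |Psi n (p n) (fun s => φ (g k s)) (fun w => U g u0 k K w) - m|)) atTop (𝓝 0)) →
  Conv c (fun _ G v => φ (U g u0 (k + 1) G v)) m

def S_LOC : Prop := ∀ (c : ℝ≥0) (g : ℕ → ℝ≥0∞ → ℝ≥0∞) (u0 : ℝ≥0∞), (∀ j, Continuous (g j)) →
  ∀ (k : ℕ) (φ : ℝ≥0∞ → ℝ), Continuous φ →
    Conv c (fun _ G v => φ (U g u0 k G v)) (∫ ω, φ (T g u0 k ω) ∂(Pm c))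

/-! The tree space -/

def S_SPLIT : Prop := ∀ c : ℝ≥0,
  (Pm c).map (fun ω : Om => (ω [], fun i : ℕ => sh i ω)) =
    (poissonMeasure c).prod (Measure.infinitePi (fun _ : ℕ => Pm c))

def S_TM : Prop :=
  (∀ F : Om → ℝ≥0∞, Measurable F →
    Measurable (fun ω : Om => ∑ i ∈ Finset.range (ω []), F (sh i ω))) ∧
  ∀ (g : ℕ → ℝ≥0∞ → ℝ≥0∞) (u0 : ℝ≥0∞), (∀ j, Measurable (g j)) → ∀ k, Measurable (T g u0 k)

def S_GEN : Prop := ∀ (c : ℝ≥0) (a : Om → ℝ), Measurable a → (∀ ω, 0 ≤ a ω ∧ a ω ≤ 1) →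
  ∫ ω, ∏ i ∈ Finset.range (ω []), a (sh i ω) ∂(Pm c) =
    Real.exp (-((c : ℝ) * (1 - ∫ ω, a ω ∂(Pm c))))

def S_MK : Prop := ∀ (c : ℝ≥0) (a : Om → ℝ≥0∞) (H : ℝ≥0∞ → ℝ≥0∞ → ℝ≥0∞), Measurable a →
  Measurable (Function.uncurry H) →
  ∫⁻ ω, ∑ i ∈ Finset.range (ω []),
      H (a (sh i ω)) (∑ j ∈ (Finset.range (ω [])).erase i, a (sh j ω)) ∂(Pm c) =
    (c : ℝ≥0∞) * ∫⁻ ω', ∫⁻ ω, H (a ω') (∑ j ∈ Finset.range (ω []), a (sh j ω)) ∂(Pm c) ∂(Pm c)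

/-- The fixed point property of the zero temperature recursion. -/
def IsFix (x : Om → ℝ≥0∞) : Prop := Measurable x ∧ (∀ ω, x ω ≤ 1) ∧
  ∀ ω, x ω = (1 + ∑ i ∈ Finset.range (ω []),
    (∑ j ∈ Finset.range ((sh i ω) []), x (sh j (sh i ω)))⁻¹)⁻¹

def S_FIX : Prop := ∃ x : Om → ℝ≥0∞, IsFix x ∧ ∀ c : ℝ≥0,
  Tendsto (fun k : ℕ => ∫ ω, (T gA 1 (2 * k) ω).toReal ∂(Pm c)) atTop
    (𝓝 (∫ ω, (x ω).toReal ∂(Pm c)))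

def S_TEQ : Prop := ∀ (c : ℝ≥0) (x : Om → ℝ≥0∞) (t s : ℝ), IsFix x →
  t = ((Pm c) {ω | x ω ≠ 0}).toReal →
  s = ((Pm c) {ω | ∑ j ∈ Finset.range (ω []), x (sh j ω) = 0}).toReal →
  s = Real.exp (-(c * t)) ∧ t = Real.exp (-(c * s))

def S_ID : Prop := ∀ (c : ℝ≥0) (x : Om → ℝ≥0∞) (t : ℝ), IsFix x →
  t = ((Pm c) {ω | x ω ≠ 0}).toReal → ∫ ω, (x ω).toReal ∂(Pm c) = val c t - 1

def S_AF : Prop := ∀ c : ℝ≥0, ∃ t : ℝ, 0 ≤ t ∧ t ≤ 1 ∧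
  t = Real.exp (-(c * Real.exp (-(c * t)))) ∧
  Tendsto (fun k : ℕ => ∫ ω, (T gA 1 (2 * k) ω).toReal ∂(Pm c)) atTop (𝓝 (val c t - 1))

/-! Monomer-dimer -/

/-- Matching generating function. -/
def Zp {V : Type} [Fintype V] (z : ℝ) (G : SimpleGraph V) : ℝ :=
  ∑ M ∈ Finset.univ.filter (fun M : Finset (Sym2 V) => IsM G M), z ^ M.card

def S_ZREC : Prop := ∀ (V : Type) [Fintype V] (z : ℝ) (G : SimpleGraph V) (v : V),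
  Zp z G = Zp z (del G v) + z * ∑ w : V, if G.Adj v w then Zp z (del (del G v) w) else 0

def S_ZSUM : Prop := ∀ (V : Type) [Fintype V] (z : ℝ) (G : SimpleGraph V), 0 ≤ z →
  dfc G * Zp z G ≤ ∑ v : V, Zp z (del G v)

def S_Z1 : Prop := ∀ (V : Type) [Fintype V] (G : SimpleGraph V) (z k : ℕ),
  dfc G ≤ ∑ v : V, (U (gZ z) 1 (2 * k) G v).toReal

def S_Z2 : Prop := ∀ (V : Type) [Fintype V] (G : SimpleGraph V) (k : ℕ) (v : V),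
  Tendsto (fun z : ℕ => U (gZ z) 1 (2 * k) G v) atTop (𝓝 (U gA 1 (2 * k) G v)) ∧
    U gA 1 (2 * k) G v ≤ 1

def S_ZA : Prop := ∀ (V : Type) [Fintype V] (G : SimpleGraph V) (k : ℕ),
  dfc G ≤ ∑ v : V, (U gA 1 (2 * k) G v).toReal

/-! Leaf removal -/

def S_JU : Prop := ∀ (V : Type) [Fintype V] (k : ℕ) (G : SimpleGraph V) (v : V),
  U gB 0 k G v = if J k G v then ⊤ else 0

def S_JT : Prop := ∀ (c : ℝ≥0) (k : ℕ), (∀ ω, T gB 0 k ω = 0 ∨ T gB 0 k ω = ⊤) ∧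
  ((Pm c) {ω | T gB 0 k ω = ⊤}).toReal = jc c k

def S_JCONV : Prop := ∀ (c : ℝ) (k : ℕ), 0 ≤ c →
  Conv c (fun _ G v => if J k G v then 1 else 0) (jc c k)

/-- The level `k` leaf removal set. -/
def LI {V : Type} [Fintype V] (k : ℕ) (G : SimpleGraph V) : Finset V :=
  Finset.univ.filter (fun v => J k G v)

/-- Vertices with two neighbours that are leaf type after removing the vertex. -/
def LD {V : Type} [Fintype V] (k : ℕ) (G : SimpleGraph V) : Finset V :=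
  Finset.univ.filter (fun v => ∃ w w' : V, w ≠ w' ∧ G.Adj v w ∧ G.Adj v w' ∧
    J k (del G v) w ∧ J k (del G v) w')

/-- Vertices on a short cycle. -/
def LB {V : Type} [Fintype V] (j : ℕ) (G : SimpleGraph V) : Finset V :=
  Finset.univ.filter (fun v => ∃ w w' : V, w ≠ w' ∧ G.Adj v w ∧ G.Adj v w' ∧
    near j (del G v) w w')

def S_IND : Prop := ∀ (V : Type) [Fintype V] (G : SimpleGraph V) (I N : Finset V),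
  (∀ v ∈ I, ∀ w ∈ I, ¬ G.Adj v w) → (∀ v ∈ I, ∀ w, G.Adj v w → w ∈ N) →
  (I.card : ℝ) - N.card ≤ dfc G

def S_JX : Prop := ∀ (V : Type) (i j : ℕ) (G : SimpleGraph V) (v w : V), J (2 * i) G v →
  G.Adj v w → ¬ J (2 * j) (del G v) w

def S_JLOC : Prop := ∀ (V : Type) (j : ℕ) (G : SimpleGraph V) (v b : V), ¬ near j G v b →
  (J j G v ↔ J j (del G b) v)

def S_JMONO : Prop := ∀ (V : Type) (k : ℕ) (G : SimpleGraph V) (v : V), J (2 * k) G v →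
  J (2 * k + 2) G v

def S_BDET : Prop := ∀ (V : Type) [Fintype V] (G : SimpleGraph V) (k : ℕ),
  ((LI (2 * k) G).card : ℝ) - (LD (2 * k) G).card - 2 * (LB (2 * k + 1) G).card ≤ dfc G

def S_BD2 : Prop := ∀ (c : ℝ) (k : ℕ) (ι : ℝ), 0 ≤ c → 0 ≤ ι → ι ≤ 1 →
  Conv c (fun _ G v => if J k G v then 1 else 0) ι → ∀ p : ℕ → ℝ, Seq c p →
  Tendsto (fun n : ℕ => EG n (p n) (fun G => ((LD k G).card : ℝ) / n)) atTop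
    (𝓝 (1 - (1 + c * ι) * Real.exp (-(c * ι))))

def S_BBD : Prop := ∀ (c : ℝ) (j : ℕ), 0 ≤ c → ∀ p : ℕ → ℝ, Seq c p →
  Tendsto (fun n : ℕ => EG n (p n) (fun G => ((LB j G).card : ℝ) / n)) atTop (𝓝 0)

/-! Karp-Sipser -/

def S_LB : Prop := ∀ (c : ℝ) (k : ℕ) (η : ℝ), 0 < c → 0 < η → ∀ p : ℕ → ℝ, Seq c p →
  ∀ᶠ n : ℕ in atTop, val c (jc c (2 * k)) - 1 - η ≤ EG n (p n) dfc / n

def S_UB : Prop := ∀ (c η : ℝ), 0 < c → 0 < η → ∀ p : ℕ → ℝ, Seq c p →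
  ∀ᶠ n : ℕ in atTop, EG n (p n) dfc / n ≤ Gam c - 1 + η

def S_KS : Prop := ∀ (c : ℝ) (p : ℕ → ℝ), 0 < c → Seq c p →
  Tendsto (fun n : ℕ => EG n (p n) dfc / n) atTop (𝓝 (Gam c - 1))

def S_UNIF : Prop := ∀ (c η : ℝ), 0 < c → 0 < η → ∃ (ρ : ℝ) (N : ℕ), 0 < ρ ∧
  ∀ (n : ℕ) (p : ℝ), N ≤ n → 0 ≤ p → p ≤ 1 → |(n : ℝ) * p - c| ≤ ρ →
    |EG n p dfc / n - (Gam c - 1)| ≤ η

/-! Analysis -/

def S_AN1 : Prop := ∀ c t : ℝ, 0 < c → t = Real.exp (-(c * Real.exp (-(c * t)))) →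
  val c t ≤ Gam c

def S_AN2 : Prop := ∀ c t : ℝ, 0 < c → SmallRoot c t → Gam c ≤ val c t

def S_AN3 : Prop := ∀ c : ℝ, 0 < c → ∃ t : ℝ, SmallRoot c t ∧
  Tendsto (fun k : ℕ => jc c (2 * k)) atTop (𝓝 t)

def S_AN4 : Prop := (∀ c d : ℝ, 0 < c → c < d → Gam d < Gam c) ∧
  ∀ α : ℝ, 0 < α → α < 1 / 2 → ∃ c : ℝ, 0 < c ∧ Gam c = 1 / (1 - α)

/-! Perfect matchings -/

/-- `G` has a perfect matching. -/
def PMa {n : ℕ} (G : SimpleGraph (Fin n)) : Prop := ∃ M : G.Subgraph, M.IsPerfectMatching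

/-- Robust connectivity after removing few vertices. -/
def Cut (K k : ℕ) {n : ℕ} (G : SimpleGraph (Fin n)) : Prop :=
  ∀ S X : Finset (Fin n), S.card ≤ K → Disjoint S X → k < X.card → k < ((S ∪ X)ᶜ).card →
    ∃ x ∈ X, ∃ y ∈ (S ∪ X)ᶜ, G.Adj x y

/-- The complete bipartite graph with parts `{x < a}` and `{x ≥ a}`. -/
def KB (n a : ℕ) : SimpleGraph (Fin n) where
  Adj x y := (x.val < a ∧ a ≤ y.val) ∨ (y.val < a ∧ a ≤ x.val)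
  symm := ⟨fun _ _ h => h.symm⟩
  loopless := ⟨fun x h => by rcases h with h | h <;> omega⟩

def S_LIP : Prop := ∀ (V : Type) [Fintype V] (G G' : SimpleGraph V) (v : V),
  del G v = del G' v → |dfc G - dfc G'| ≤ 2

def S_DET1 : Prop := ∀ (n a k K : ℕ) (H R : SimpleGraph (Fin n)), Even n → a ≤ n →
  n < K * (k + 1) →
  (∀ v : Fin n, ∃ e : Fin (n - a) ↪ Fin n, (∀ x, x ∉ Set.range e → H.Adj v x) ∧
    dfc (R.comap e) + 2 * k ≤ a) →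
  Cut K k (H ⊔ R) → PMa (H ⊔ R)

def S_DET0 : Prop := ∀ (n a : ℕ) (R : SimpleGraph (Fin n)) (e : Fin (n - a) ↪ Fin n), a ≤ n →
  (∀ x : Fin n, x ∈ Set.range e ↔ a ≤ x.val) → PMa (KB n a ⊔ R) → dfc (R.comap e) ≤ a

def S_KBD : Prop := ∀ (n a : ℕ) (x : ℝ), 1 ≤ n → x ≤ a → a ≤ n → x ≤ n - a →
  x ≤ ((KB n a).minDegree : ℝ)

def S_CUT : Prop := ∀ (α κ β δ : ℝ) (K : ℕ), 0 < α → 0 < κ → 0 < β → 0 < δ →
  ∃ N : ℕ, ∀ (n : ℕ) (H : SimpleGraph (Fin n)) (p : ℝ) (k : ℕ), N ≤ n →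
    α * n ≤ (H.minDegree : ℝ) → β / n ≤ p → p ≤ 1 → κ * n ≤ k →
    EG n p (fun R => if Cut K k (H ⊔ R) then (0 : ℝ) else 1) ≤ δ

def S_FIN1 : Prop := ∀ α c ε δ : ℝ, 0 < α → α < 1 / 2 → 0 < c → Gam c = 1 / (1 - α) →
  0 < ε → ε < 1 → 0 < δ →
  ∃ N : ℕ, ∀ n : ℕ, N ≤ n → Even n → ∀ H : SimpleGraph (Fin n), α * n ≤ (H.minDegree : ℝ) →
    1 - δ ≤ EG n ((1 + ε) * (c / (1 - α)) / n) (fun R => if PMa (H ⊔ R) then (1 : ℝ) else 0)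

def S_FIN0 : Prop := ∀ α c ε δ : ℝ, 0 < α → α < 1 / 2 → 0 < c → Gam c = 1 / (1 - α) →
  0 < ε → ε < 1 → 0 < δ →
  ∃ N : ℕ, ∀ n : ℕ, N ≤ n → Even n → ∃ H : SimpleGraph (Fin n), α * n ≤ (H.minDegree : ℝ) ∧
    EG n ((1 - ε) * (c / (1 - α)) / n) (fun R => if PMa (H ⊔ R) then (1 : ℝ) else 0) ≤ δ

end

end Pool.Agent.W845.PM
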