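import Pool.Agent.W845.PM.Base

set_option autoImplicit false
open scoped Classical
open Filter Topology MeasureTheory ProbabilityTheory
open scoped ENNReal NNReal BigOperators

namespace Pool.Agent.W845.PM

theorem top_param (h1 : S_AN1) (h2 : S_AN2) (h3 : S_AN3) (h4 : S_AN4) (α : ℝ) (ha : 0 < α)
    (hb : α < 1 / 2) :
    ∃ c : ℝ, 0 < c ∧ Gam c = 1 / (1 - α) ∧ 0 < c / (1 - α) ∧ ∃ γ : ℝ,
      γ = (1 - α) * (c / (1 - α)) * Real.exp (-((1 - α) * (c / (1 - α)) * Real.exp (-γ))) ∧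
      (∀ x : ℝ, x = (1 - α) * (c / (1 - α)) *
        Real.exp (-((1 - α) * (c / (1 - α)) * Real.exp (-x))) → γ ≤ x) ∧
      1 - (γ + (1 - α) * (c / (1 - α)) * Real.exp (-γ) +
        γ * ((1 - α) * (c / (1 - α)) * Real.exp (-γ)))
          / ((2 - 2 * α) * (c / (1 - α))) = (1 - 2 * α) / (2 - 2 * α) := by
  obtain ⟨c, hc, hG⟩ := h4.2 α ha hb
  obtain ⟨t, ht, -⟩ := h3 c hc
  have hα : (1 - α) ≠ 0 := by linarith
  have hmul : (1 - α) * (c / (1 - α)) = c := by field_simp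
  refine ⟨c, hc, hG, div_pos hc (by linarith), c * t, ?_, ?_, ?_⟩
  · rw [hmul]
    conv_lhs => rw [ht.1]
  · intro x hx
    rw [hmul] at hx
    have hx' : x / c = Real.exp (-(c * Real.exp (-(c * (x / c))))) := by
      have h5 : c * (x / c) = x := by field_simp
      rw [h5]
      rw [div_eq_iff hc.ne']
      linarith
    have := ht.2 _ hx'
    rw [le_div_iff₀ hc] at this
    linarith
  · have hv : val c t = 1 / (1 - α) := by
      rw [← hG]
      exact le_antisymm (h1 c t hc ht.1) (h2 c t hc ht)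
    rw [hmul]
    have hden : (2 - 2 * α) * (c / (1 - α)) = 2 * c := by
      field_simp
    have hnum : c * t + c * Real.exp (-(c * t)) + c * t * (c * Real.exp (-(c * t))) =
        c * val c t := by
      unfold val; ring
    rw [hden, hnum, hv]
    have h6 : (2 - 2 * α) ≠ 0 := by linarith
    field_simp
    ring

theorem top (h1 : S_AN1) (h2 : S_AN2) (h3 : S_AN3) (h4 : S_AN4) (h5 : S_FIN1) (h6 : S_FIN0) :
    ∀ α : ℝ, 0 < α → α < 1 / 2 →
    ∃ C : ℝ, 0 < C ∧ ∃ γ : ℝ,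
      γ = (1 - α) * C * Real.exp (-((1 - α) * C * Real.exp (-γ))) ∧
      (∀ x : ℝ, x = (1 - α) * C * Real.exp (-((1 - α) * C * Real.exp (-x))) → γ ≤ x) ∧
      1 - (γ + (1 - α) * C * Real.exp (-γ) + γ * ((1 - α) * C * Real.exp (-γ)))
          / ((2 - 2 * α) * C) = (1 - 2 * α) / (2 - 2 * α) ∧
      ∀ ε : ℝ, 0 < ε → ε < 1 → ∀ δ : ℝ, 0 < δ →
        ∃ N : ℕ, ∀ n : ℕ, N ≤ n → Even n →
          (∀ H : SimpleGraph (Fin n), α * (n : ℝ) ≤ (H.minDegree : ℝ) →
            1 - δ ≤ ∑ G : SimpleGraph (Fin n),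
              (if (∃ M : (H ⊔ G).Subgraph, M.IsPerfectMatching) then
                ((1 + ε) * C / n) ^ G.edgeSet.ncard *
                  (1 - (1 + ε) * C / n) ^ (n.choose 2 - G.edgeSet.ncard)
              else 0)) ∧
          (∃ H : SimpleGraph (Fin n), α * (n : ℝ) ≤ (H.minDegree : ℝ) ∧
            ∑ G : SimpleGraph (Fin n),
              (if (∃ M : (H ⊔ G).Subgraph, M.IsPerfectMatching) then
                ((1 - ε) * C / n) ^ G.edgeSet.ncard *
                  (1 - (1 - ε) * C / n) ^ (n.choose 2 - G.edgeSet.ncard)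
              else 0) ≤ δ) := by
  intro α ha hb
  obtain ⟨c, hc, hG, hC, γ, e1, e2, e3⟩ := top_param h1 h2 h3 h4 α ha hb
  refine ⟨c / (1 - α), hC, γ, e1, e2, e3, ?_⟩
  intro ε hε hε1 δ hδ
  obtain ⟨N1, hN1⟩ := h5 α c ε δ ha hb hc hG hε hε1 hδ
  obtain ⟨N0, hN0⟩ := h6 α c ε δ ha hb hc hG hε hε1 hδ
  refine ⟨max N1 N0, fun n hn hev => ⟨fun H hH => ?_, ?_⟩⟩
  · refine (hN1 n (le_trans (le_max_left _ _) hn) hev H hH).trans (le_of_eq ?_)
    unfold EG wt PMa
    refine Finset.sum_congr rfl fun G _ => ?_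
    beta_reduce
    by_cases h : ∃ M : (H ⊔ G).Subgraph, M.IsPerfectMatching
    · rw [if_pos h, if_pos h, mul_one]
    · rw [if_neg h, if_neg h, mul_zero]
  · obtain ⟨H, hH, hle⟩ := hN0 n (le_trans (le_max_right _ _) hn) hev
    refine ⟨H, hH, le_trans (le_of_eq ?_) hle⟩
    unfold EG wt PMa
    refine Finset.sum_congr rfl fun G _ => ?_
    beta_reduce
    by_cases h : ∃ M : (H ⊔ G).Subgraph, M.IsPerfectMatching
    · rw [if_pos h, if_pos h, mul_one]
    · rw [if_neg h, if_neg h, mul_zero]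

end Pool.Agent.W845.PM
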